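import Pool.Agent.H749.PT.Grp

/-!
Two `ℙ`-twists along non-orthogonal `ℙ`-objects, no shift of one of which is isomorphic to the
other, satisfy no relation.
-/

set_option autoImplicit false

open CategoryTheory CategoryTheory.Limits CategoryTheory.Pretriangulated
open Pool.Agent.H749.PT

namespace Pool.Agent.Results.MP_ee8c04_ag.PTwistsFree

universe v u w

theorem result (𝕜 : Type w) [Field 𝕜] (C : Type u) [Category.{v} C] [Preadditive C] [Linear 𝕜 C]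
    [HasZeroObject C] [HasShift C ℤ] [∀ i : ℤ, (shiftFunctor C i).Additive]
    [∀ i : ℤ, (shiftFunctor C i).Linear 𝕜] [Pretriangulated C]
    (n₁ n₂ : ℕ) (k₁ k₂ : ℤ) (hn₁ : 0 < n₁) (hn₂ : 0 < n₂) (P₁ P₂ : C)
    (t₁ : ShiftedHom P₁ P₁ k₁) (t₂ : ShiftedHom P₂ P₂ k₂)
    (hP₁ : IsPObj 𝕜 n₁ k₁ P₁ t₁) (hP₂ : IsPObj 𝕜 n₂ k₂ P₂ t₂)
    (hfin : FinHom 𝕜 P₁ P₂)
    (horth : ∃ (i : ℤ) (f : ShiftedHom P₁ P₂ i), f ≠ 0)
    (hiso : ∀ i : ℤ, IsEmpty (P₁ ≅ P₂⟦i⟧))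
    (T₁ T₂ : C ≌ C)
    [T₁.functor.CommShift ℤ] [T₁.functor.Additive] [T₁.functor.Linear 𝕜]
    [T₂.functor.CommShift ℤ] [T₂.functor.Additive] [T₂.functor.Linear 𝕜]
    (hT₁ : IsPTwist 𝕜 t₁ T₁.functor) (hT₂ : IsPTwist 𝕜 t₂ T₂.functor) :
    Function.Injective (FreeGroup.lift ![AutGrp.mk T₁, AutGrp.mk T₂] :
      FreeGroup (Fin 2) →* AutGrp C) ∧
    ∀ (x : FreeGroup (Fin 2)) (m : ℤ),
      FreeGroup.lift ![AutGrp.mk T₁, AutGrp.mk T₂] x = AutGrp.shift C m → x = 1 := by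
  have h := exists_pr hn₁ hn₂ hP₁ hP₂ hfin (hP₁.finHom_symm hfin) horth hiso
  have hfree := free_gPerm h hT₁ hT₂ hP₁.finHom_self
  have key : ∀ (x : FreeGroup (Fin 2)) (m : ℤ),
      FreeGroup.lift ![AutGrp.mk T₁, AutGrp.mk T₂] x = AutGrp.shift C m → x = 1 :=
    fun x m hx => lift_ne_shift hfree x m hx
  refine ⟨?_, key⟩
  rw [injective_iff_map_eq_one]
  intro x hx
  apply key x 0
  rw [hx]
  exact (AutGrp.mk_eq_iff (T := CategoryTheory.Equivalence.refl) (T' := shiftEquiv C (0 : ℤ))).2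
    ⟨(shiftFunctorZero C ℤ).symm⟩

end Pool.Agent.Results.MP_ee8c04_ag.PTwistsFree
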